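import Pool.Agent.Helper89.Vol5.Goals2
import Pool.Agent.Helper68.Vol5.J58

/-! # MP_cd13d2_co, project V58: packet V58-J58E (the equality case of the planar inequality) -/

set_option autoImplicit false

namespace Pool.Agent.Helper78.Vol5.PkJ58E

open Set Pool.Agent.Helper89.Vol5 Pool.Agent.Helper68.Vol5.PkJ58

theorem strict {t g : ℝ} (ht : 0 ≤ t) (ht3 : t ≤ 54 / 100) (hg : 0 ≤ g) (hg1 : g < 1) :
    √(3 / 2 - t ^ 2) * g + t * √(6 - (g + 2 * t) ^ 2) < h5 t := by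
  have hM : 0 ≤ 3 / 2 - t ^ 2 := by nlinarith
  have hA : 0 ≤ 6 - (g + 2 * t) ^ 2 := by nlinarith
  set M := √(3 / 2 - t ^ 2) with hMd
  have hM0 : 0 ≤ M := Real.sqrt_nonneg _
  have hM2 : M ^ 2 = 3 / 2 - t ^ 2 := Real.sq_sqrt hM
  set a := √(6 - (g + 2 * t) ^ 2) with had
  have ha0 : 0 ≤ a := Real.sqrt_nonneg _
  have ha2 : a ^ 2 = 6 - (g + 2 * t) ^ 2 := Real.sq_sqrt hA
  have hB : 1 / 2 ≤ 6 - (1 + 2 * t) ^ 2 := by nlinarith
  have hf : h5 t = M + t * √(6 - (1 + 2 * t) ^ 2) := rfl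
  rw [hf]
  set b := √(6 - (1 + 2 * t) ^ 2) with hbd
  have hb2 : b ^ 2 = 6 - (1 + 2 * t) ^ 2 := Real.sq_sqrt (by linarith)
  have hb0 : 0 < b := Real.sqrt_pos.2 (by linarith)
  have hba : b ≤ a := Real.sqrt_le_sqrt (by nlinarith)
  have h1 : t * (1 + 2 * t) < M * b := by
    have hlt : (t * (1 + 2 * t)) ^ 2 < (M * b) ^ 2 := by
      have h2 : (M * b) ^ 2 = (3 / 2 - t ^ 2) * (6 - (1 + 2 * t) ^ 2) := by
        rw [mul_pow, hM2, hb2]
      rw [h2]
      have h3 : (t * (1 + 2 * t)) ^ 2 ≤ (54 / 100 * (1 + 2 * (54 / 100))) ^ 2 := by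
        gcongr
      have h4 : (3 / 2 - (54 / 100) ^ 2) * (6 - (1 + 2 * (54 / 100)) ^ 2) ≤
          (3 / 2 - t ^ 2) * (6 - (1 + 2 * t) ^ 2) := by
        have h5 : (3 / 2 - (54 / 100 : ℝ) ^ 2) ≤ 3 / 2 - t ^ 2 := by nlinarith
        have h6 : (6 - (1 + 2 * (54 / 100 : ℝ)) ^ 2) ≤ 6 - (1 + 2 * t) ^ 2 := by nlinarith
        exact mul_le_mul h5 h6 (by norm_num) hM
      have h5 : (54 / 100 * (1 + 2 * (54 / 100 : ℝ))) ^ 2 <
          (3 / 2 - (54 / 100 : ℝ) ^ 2) * (6 - (1 + 2 * (54 / 100)) ^ 2) := by norm_num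
      linarith
    exact lt_of_pow_lt_pow_left₀ 2 (by positivity) hlt
  have h2 : (a - b) * (2 * b) ≤ (1 - g) * (2 + 4 * t) := by
    have h3 : (a - b) * (a + b) = (1 - g) * (1 + g + 4 * t) := by
      linear_combination ha2 - hb2
    have h4 : (a - b) * (2 * b) ≤ (a - b) * (a + b) :=
      mul_le_mul_of_nonneg_left (by linarith) (by linarith)
    have h5 : (1 - g) * (1 + g + 4 * t) ≤ (1 - g) * (2 + 4 * t) :=
      mul_le_mul_of_nonneg_left (by linarith) (by linarith)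
    linarith
  have h3 : t * (a - b) * b < (1 - g) * M * b := by
    have h4 : t * ((a - b) * (2 * b)) ≤ t * ((1 - g) * (2 + 4 * t)) :=
      mul_le_mul_of_nonneg_left h2 ht
    have h5 : (1 - g) * (t * (1 + 2 * t)) < (1 - g) * (M * b) :=
      mul_lt_mul_of_pos_left h1 (by linarith)
    nlinarith
  have h4 := lt_of_mul_lt_mul_right h3 hb0.le
  linarith

theorem thm (hn : G_NUM5) (hu : G_UNI5) : G_J58E := by
  intro t₀ ht₀ hmax t k M g1 g2 S ht0 ht2 hk hM hg1 hg2 hS hkM hg hSS hval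
  have hbig : (1.82 : ℝ) < h5 t₀ := by
    have a := hn.2.1
    have b := hmax (455 / 1000) ⟨by norm_num, by norm_num⟩
    have c : (1.82 : ℝ) < 1.834874 := by norm_num
    linarith
  have hg1' : g1 ≤ 1 := by nlinarith [sq_nonneg g2, sq_nonneg (g1 - 1)]
  have hMp : 0 ≤ 3 / 2 - t ^ 2 := by linarith
  by_cases hc : √(3 / 2 - t ^ 2) * g2 ≤ t * g1
  · have hA := caseA ht0 ht2 hk hg1 hkM hSS hc
    have hA' : 0 ≤ 6 - (g1 + 2 * t) ^ 2 := by nlinarith [sq_nonneg S, sq_nonneg g2]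
    have hB := caseA2 ht0 ht2 hg1 hg1' hA'
    have ht9 : t < 54 / 100 := by
      by_contra hcon
      have h1 := hB.2 (not_lt.mp hcon)
      linarith
    have hft : h5 t ≤ h5 t₀ := hmax t ⟨ht0, by linarith⟩
    have hg11 : g1 = 1 := by
      by_contra hcon
      have hlt : g1 < 1 := lt_of_le_of_ne hg1' hcon
      have := strict ht0 ht9.le hg1 hlt
      linarith
    have hg20 : g2 = 0 := by
      have : g2 ^ 2 ≤ 0 := by
        rw [hg11] at hg
        linarith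
      exact pow_eq_zero_iff (two_ne_zero) |>.mp (le_antisymm this (sq_nonneg g2))
    subst hg11 hg20
    have hkN : 0 ≤ k * t := mul_nonneg hk ht0
    have hMle : M ≤ √(3 / 2 - t ^ 2) := by
      apply Real.le_sqrt_of_sq_le
      nlinarith [sq_nonneg k]
    have hSle : S ≤ √(6 - (1 + 2 * t) ^ 2) := by
      apply Real.le_sqrt_of_sq_le
      nlinarith
    have hfdef : h5 t = √(3 / 2 - t ^ 2) + t * √(6 - (1 + 2 * t) ^ 2) := rfl
    have hNS : t * S ≤ t * √(6 - (1 + 2 * t) ^ 2) := mul_le_mul_of_nonneg_left hSle ht0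
    have hfeq : h5 t = h5 t₀ := le_antisymm hft (by rw [hfdef]; linarith)
    have hU := hu t₀ ht₀ hmax
    have hNN : t = t₀ := hU.1 t ⟨ht0, by linarith⟩ hfeq
    have hNpos : 0 < t := by
      rw [hNN]
      have := hU.2.2.1
      have h0 : (0 : ℝ) < 0.455 := by norm_num
      linarith
    have hMeq : M = √(3 / 2 - t ^ 2) := by
      apply le_antisymm hMle
      rw [← hfeq, hfdef] at hval
      linarith
    have hSeq : S = √(6 - (1 + 2 * t) ^ 2) := by
      apply le_antisymm hSle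
      rw [← hfeq, hfdef] at hval
      have : t * √(6 - (1 + 2 * t) ^ 2) ≤ t * S := by linarith
      exact le_of_mul_le_mul_left this hNpos
    have hk0 : k = 0 := by
      have hsq : M ^ 2 = 3 / 2 - t ^ 2 := by
        rw [hMeq, Real.sq_sqrt hMp]
      have h4 : k ^ 2 + 2 * k * t ≤ 0 := by nlinarith
      have : k ^ 2 ≤ 0 := by linarith
      exact pow_eq_zero_iff (two_ne_zero) |>.mp (le_antisymm this (sq_nonneg k))
    rw [← hNN]
    refine ⟨rfl, hk0, ?_, rfl, rfl, ?_⟩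
    · rw [hMeq, hh]
    · rw [hSeq, yy]; ring
  · exfalso
    push Not at hc
    have hs : √(3 / 2 - t ^ 2) ≤ 1.2248 := by
      refine Real.sqrt_le_iff.2 ⟨by norm_num, ?_⟩
      nlinarith [sq_nonneg t]
    have hx : 0.8164 * (t * g1) ≤ g2 := by
      have := mul_le_mul_of_nonneg_right hs hg2
      linarith
    have := caseB ht0 ht2 hg1 hg2 hkM hg hSS hx
    linarith

end Pool.Agent.Helper78.Vol5.PkJ58E
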