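import Pool.Agent.Helper89.Vol5.Goals
import Pool.Agent.Helper48.Vol4.Q22

/-!
# MP_cd13d2_co, project V58, packet Q2212: the planar inequality for the pattern 2,2,1,2,1
-/

open Set

namespace Pool.Agent.Helper78.Vol5.PkQ2212

open Pool.Agent.Helper89.Vol5 Pool.Agent.Helper48.Vol4.PkQ22

theorem cond2' {α x y z L : ℝ} (hα2 : 3 * α ^ 2 = L ^ 2 * (4 - L))
    (hM : (x + y) ^ 2 + z ^ 2 ≤ 1 - L / 2) (h0 : 0 ≤ L) (h1 : L ≤ 1) :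
    (α * x + α * y) ^ 2 + (α * z) ^ 2 ≤ 1 / 2 := by
  have h2 : (α * x + α * y) ^ 2 + (α * z) ^ 2 = α ^ 2 * ((x + y) ^ 2 + z ^ 2) := by ring
  have h3 : α ^ 2 * ((x + y) ^ 2 + z ^ 2) ≤ α ^ 2 * (1 - L / 2) :=
    mul_le_mul_of_nonneg_left hM (by positivity)
  have h4 : α ^ 2 * (1 - L / 2) = L ^ 2 * (4 - L) * (2 - L) / 6 := by
    linear_combination ((1 - L / 2) / 3) * hα2
  have h5 := poly1 h0 h1
  rw [h2]
  linarith

theorem hM_aux' {L b0 v0 v1 : ℝ} (hv : v0 ^ 2 + v1 ^ 2 ≤ 1 - L / 2)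
    (hvb : (v0 - b0) ^ 2 + v1 ^ 2 ≤ 1 - L / 2) :
    (|b0 / 2 - v0| + b0 / 2) ^ 2 + |v1| ^ 2 ≤ 1 - L / 2 := by
  rw [sq_abs]
  have ea : (b0 / 2 - v0 + b0 / 2) ^ 2 = (v0 - b0) ^ 2 := by ring
  have eb : (-(b0 / 2 - v0) + b0 / 2) ^ 2 = v0 ^ 2 := by ring
  rcases abs_cases (b0 / 2 - v0) with ⟨e, _⟩ | ⟨e, _⟩ <;> rw [e]
  · rw [ea]; exact hvb
  · rw [eb]; exact hv

theorem two_mul_le {x y z : ℝ} (hx : 0 ≤ x) (hy : 0 ≤ y) (hz : z ≤ 1) :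
    2 * (x * y * z) ≤ x ^ 2 + y ^ 2 := by
  have h1 := sq_nonneg (x - y)
  have h2 : (x - y) ^ 2 = x ^ 2 + y ^ 2 - 2 * (x * y) := by ring
  have h3 : x * y * z ≤ x * y := mul_le_of_le_one_right (by positivity) hz
  linarith

theorem thm (h : G_J5b) : G_Q2212 := by
  intro l1 l2 l3 b0 u0 u1 v0 v1 w0 w1 hl10 hl11 hl20 hl21 hl30 hl31 hb0 hu hv hw hub hvb hwb
    hb2 huw
  obtain ⟨L, hL⟩ : ∃ L : ℝ, L = l1 * l2 * l3 := ⟨_, rfl⟩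
  have hL0 : 0 ≤ L := by rw [hL]; positivity
  have hL1 : L ≤ 1 := by
    rw [hL]
    exact mul_le_one₀ (mul_le_one₀ hl11 hl20 hl21) hl30 hl31
  have s12 : 2 * L ≤ l1 ^ 2 + l2 ^ 2 := by
    rw [hL]; exact two_mul_le hl10 hl20 hl31
  have s13 : 2 * L ≤ l1 ^ 2 + l3 ^ 2 := by
    have e : l1 * l2 * l3 = l1 * l3 * l2 := by ring
    rw [hL, e]; exact two_mul_le hl10 hl30 hl21
  have s23 : 2 * L ≤ l2 ^ 2 + l3 ^ 2 := by
    have e : l1 * l2 * l3 = l2 * l3 * l1 := by ring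
    rw [hL, e]; exact two_mul_le hl20 hl30 hl11
  have h4L : 0 < 4 - L := by linarith
  obtain ⟨β, hβ⟩ : ∃ β : ℝ, β = Real.sqrt (3 / (4 - L)) := ⟨_, rfl⟩
  have hβ0 : 0 < β := by rw [hβ]; exact Real.sqrt_pos.2 (by positivity)
  have hβs : β ^ 2 = 3 / (4 - L) := by rw [hβ, Real.sq_sqrt (by positivity)]
  have hβ2 : β ^ 2 * (4 - L) = 3 := by rw [hβs, div_mul_cancel₀ _ h4L.ne']
  obtain ⟨α, hα⟩ : ∃ α : ℝ, α = L / β := ⟨_, rfl⟩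
  have hαβ : α * β = L := by rw [hα, div_mul_cancel₀ _ hβ0.ne']
  have hα0 : 0 ≤ α := by rw [hα]; positivity
  have hα2 : 3 * α ^ 2 = L ^ 2 * (4 - L) := by
    calc 3 * α ^ 2 = (β ^ 2 * (4 - L)) * α ^ 2 := by rw [hβ2]
      _ = (α * β) ^ 2 * (4 - L) := by ring
      _ = _ := by rw [hαβ]
  have hβ1 : β ^ 2 ≤ 1 := by rw [hβs, div_le_one h4L]; linarith
  have hαleβ : α ≤ β := by
    rw [hα, div_le_iff₀ hβ0, ← pow_two, hβs, le_div_iff₀ h4L]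
    have h1 : 0 ≤ (1 - L) * (3 - L) := mul_nonneg (by linarith) (by linarith)
    have h2 : (1 - L) * (3 - L) = 3 - L * (4 - L) := by ring
    linarith
  have hQ := hQ_aux s12 hu hw hub hwb
  have hM := hM_aux' (L := L) (b0 := b0) (v0 := v0) (v1 := v1) (by linarith) (by linarith)
  have hb3 : b0 ^ 2 ≤ 1 - L / 2 := by linarith
  have key := h (α * (b0 / 2)) (α * |b0 / 2 - v0|) (α * |v1|) (β * |u0 - w0|)
    (β * |u1 - w1|) (β * |u1 + w1|) (by positivity) (cond1 hα2 hb3 hL0 hL1) (by positivity)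
    (by positivity) (by positivity) (by positivity) (by positivity) (cond2' hα2 hM hL0 hL1)
    (cond3 hβ1 huw) (cond4 hα0 hβ0 hb0 hαleβ hβ2 hQ)
  have e1 : α * |b0 / 2 - v0| * (β * |u1 - w1|) + α * |v1| * (β * |u0 - w0|) +
      α * (b0 / 2) * (β * |u1 + w1|) =
      L * (|b0 / 2 - v0| * |u1 - w1| + |v1| * |u0 - w0| + b0 / 2 * |u1 + w1|) := by
    rw [← hαβ]; ring
  rw [e1] at key
  refine le_trans ?_ key
  rw [← hL]
  refine mul_le_mul_of_nonneg_left ?_ hL0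
  have e2 : b0 * u1 + (u0 * v1 - u1 * v0) + (v0 * w1 - v1 * w0) =
      (b0 / 2 - v0) * (u1 - w1) + v1 * (u0 - w0) + b0 / 2 * (u1 + w1) := by ring
  rw [e2]
  refine (abs_add_le _ _).trans ?_
  refine add_le_add ((abs_add_le _ _).trans ?_) ?_
  · rw [abs_mul, abs_mul]
  · rw [abs_mul, abs_of_nonneg (by positivity : (0 : ℝ) ≤ b0 / 2)]

end Pool.Agent.Helper78.Vol5.PkQ2212
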